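import Pool.Agent.Helper15.KP.Defs

set_option autoImplicit false

open MeasureTheory Set

noncomputable section

namespace Pool.Agent.Helper11.KP

open Pool.Agent.Helper15.KP

/-- A continuous function, bounded below, whose sublevel sets are relatively compact. -/
structure Prp {X : Type*} [TopologicalSpace X] (M : X → ℝ) : Prop where
  cont : Continuous M
  cpt : ∀ r : ℝ, ∃ K : Set X, IsCompact K ∧ ∀ x, M x ≤ r → x ∈ K
  bd : ∃ C : ℝ, ∀ x, C ≤ M x

theorem Prp.extend {X : Type*} [TopologicalSpace X] {M : X → ℝ} (h : Prp M) :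
    Prp (fun q : X × (ℝ × ℝ) => M q.1 + q.2.1 ^ 2 + q.2.2 ^ 2) := by
  obtain ⟨C, hC⟩ := h.bd
  refine ⟨?_, ?_, ?_⟩
  · have := h.cont
    fun_prop
  · intro r
    obtain ⟨K, hK, hK2⟩ := h.cpt r
    refine ⟨K ×ˢ (Icc (-Real.sqrt (r - C)) (Real.sqrt (r - C)) ×ˢ
      Icc (-Real.sqrt (r - C)) (Real.sqrt (r - C))), hK.prod (isCompact_Icc.prod isCompact_Icc), ?_⟩
    rintro ⟨x, a, b⟩ hx
    simp only at hx
    have hCx := hC x
    have ha : a ^ 2 ≤ r - C := by nlinarith [sq_nonneg a, sq_nonneg b]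
    have hb : b ^ 2 ≤ r - C := by nlinarith [sq_nonneg a, sq_nonneg b]
    refine ⟨hK2 x (by nlinarith [sq_nonneg a, sq_nonneg b]), ?_, ?_⟩
    · exact abs_le.1 (Real.abs_le_sqrt ha)
    · exact abs_le.1 (Real.abs_le_sqrt hb)
  · exact ⟨C, fun q => by nlinarith [sq_nonneg q.2.1, sq_nonneg q.2.2, hC q.1]⟩

theorem Prp.comp_supp {X : Type*} [TopologicalSpace X] [T2Space X] {M : X → ℝ} (h : Prp M)
    {G : ℝ → ℝ} (hs : HasCompactSupport G) : HasCompactSupport (fun x => G (M x)) := by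
  obtain ⟨B, hB⟩ := hs.isCompact.bddAbove
  obtain ⟨K, hK, hK2⟩ := h.cpt B
  refine HasCompactSupport.intro hK fun x hx => ?_
  by_contra hne
  exact hx (hK2 x (hB (subset_tsupport G hne)))

/-- Integrating out two variables. -/
theorem peel {X : Type*} [TopologicalSpace X] [T2Space X] [MeasureSpace X] [BorelSpace X]
    [SigmaFinite (volume : Measure X)] [IsFiniteMeasureOnCompacts (volume : Measure X)]
    {M : X → ℝ} (h : Prp M) (G : ℝ → ℝ) (hG : Continuous G) (hs : HasCompactSupport G)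
    (hrad : ∀ a : ℝ, ∫ p : ℝ × ℝ, G (a + p.1 ^ 2 + p.2 ^ 2) = Real.pi * ∫ u in Ioi a, G u) :
    ∫ q : X × (ℝ × ℝ), G (M q.1 + q.2.1 ^ 2 + q.2.2 ^ 2) =
      Real.pi * ∫ x : X, ∫ u in Ioi (M x), G u := by
  have hint : Integrable (fun q : X × (ℝ × ℝ) => G (M q.1 + q.2.1 ^ 2 + q.2.2 ^ 2))
      ((volume : Measure X).prod (volume : Measure (ℝ × ℝ))) :=
    (hG.comp h.extend.cont).integrable_of_hasCompactSupport (h.extend.comp_supp hs)
  rw [Measure.volume_eq_prod, integral_prod _ hint, ← integral_const_mul]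
  exact integral_congr_ae (Filter.Eventually.of_forall fun x => hrad (M x))

/-- Splitting off the first coordinate and the last real variable. -/
def e1 (m : ℕ) : ((Fin (m + 1) → ℝ) × ℝ) ≃ᵐ (Fin m → ℝ) × (ℝ × ℝ) :=
  ((MeasurableEquiv.piFinSuccAbove (fun _ => ℝ) 0).prodCongr (MeasurableEquiv.refl ℝ)).trans
    ((MeasurableEquiv.prodComm.prodCongr (MeasurableEquiv.refl ℝ)).trans MeasurableEquiv.prodAssoc)

theorem mp_e1 (m : ℕ) : MeasurePreserving (e1 m) := by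
  have h1 : MeasurePreserving
      ((MeasurableEquiv.piFinSuccAbove (fun _ : Fin (m + 1) => ℝ) 0).prodCongr
        (MeasurableEquiv.refl ℝ)) :=
    (volume_preserving_piFinSuccAbove (fun _ : Fin (m + 1) => ℝ) 0).prod
      (MeasurePreserving.id volume)
  have h2 : MeasurePreserving
      ((MeasurableEquiv.prodComm (α := ℝ) (β := Fin m → ℝ)).prodCongr (MeasurableEquiv.refl ℝ)) :=
    (Measure.measurePreserving_swap (μ := (volume : Measure ℝ))
      (ν := (volume : Measure (Fin m → ℝ)))).prod (MeasurePreserving.id volume)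
  have h3 : MeasurePreserving (MeasurableEquiv.prodAssoc (α := Fin m → ℝ) (β := ℝ) (γ := ℝ)) :=
    measurePreserving_prodAssoc _ _ _
  exact h3.comp (h2.comp h1)

/-- Splitting off the first two coordinates. -/
def e2 (m : ℕ) : (Fin (m + 2) → ℝ) ≃ᵐ (Fin m → ℝ) × (ℝ × ℝ) :=
  (MeasurableEquiv.piFinSuccAbove (fun _ => ℝ) 0).trans
    (((MeasurableEquiv.refl ℝ).prodCongr (MeasurableEquiv.piFinSuccAbove (fun _ => ℝ) 0)).trans
      (MeasurableEquiv.prodAssoc.symm.trans MeasurableEquiv.prodComm))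

theorem mp_e2 (m : ℕ) : MeasurePreserving (e2 m) := by
  have h1 := volume_preserving_piFinSuccAbove (fun _ : Fin (m + 2) => ℝ) 0
  have h2 : MeasurePreserving ((MeasurableEquiv.refl ℝ).prodCongr
      (MeasurableEquiv.piFinSuccAbove (fun _ : Fin (m + 1) => ℝ) 0)) :=
    (MeasurePreserving.id volume).prod
      (volume_preserving_piFinSuccAbove (fun _ : Fin (m + 1) => ℝ) 0)
  have h3 : MeasurePreserving (MeasurableEquiv.prodAssoc (α := ℝ) (β := ℝ) (γ := Fin m → ℝ)).symm :=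
    (measurePreserving_prodAssoc _ _ _).symm
  have h4 : MeasurePreserving (MeasurableEquiv.prodComm (α := ℝ × ℝ) (β := Fin m → ℝ)) :=
    Measure.measurePreserving_swap
  exact h4.comp (h3.comp (h2.comp h1))

theorem mn_add {n : ℕ} (g : Fin (n + 1) → ℝ) (c : ℝ) : mn (fun k => g k + c) = mn g + c := by
  unfold mn
  apply le_antisymm
  · obtain ⟨k, hk, hk2⟩ := Finset.exists_mem_eq_inf' (Finset.univ_nonempty (α := Fin (n + 1))) g
    rw [hk2]
    exact Finset.inf'_le (fun k => g k + c) hk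
  · refine Finset.le_inf' _ _ fun k hk => ?_
    have := Finset.inf'_le g hk
    linarith

theorem prp_mn {d n : ℕ} (R : Fin (n + 1) → ℝ) (p : Fin (n + 1) → Fin d → ℝ) :
    Prp (fun z : Fin d → ℝ => mn fun k => sq z (p k) - R k) := by
  refine ⟨?_, ?_, ?_⟩
  · unfold mn Helper15.KP.sq
    apply Continuous.finset_inf'_apply
    intro i _
    fun_prop
  · intro r
    refine ⟨⋃ k, Metric.closedBall (p k) (Real.sqrt (r + R k)),
      isCompact_iUnion fun k => isCompact_closedBall _ _, ?_⟩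
    intro z hz
    obtain ⟨k, -, hk⟩ := Finset.exists_mem_eq_inf' (Finset.univ_nonempty (α := Fin (n + 1)))
      (fun k => sq z (p k) - R k)
    have hk2 : sq z (p k) ≤ r + R k := by
      have : sq z (p k) - R k ≤ r := by
        rw [← hk]
        exact hz
      linarith
    refine mem_iUnion.2 ⟨k, ?_⟩
    rw [Metric.mem_closedBall, dist_pi_le_iff (Real.sqrt_nonneg _)]
    intro l
    rw [Real.dist_eq]
    refine Real.abs_le_sqrt (le_trans ?_ hk2)
    unfold Helper15.KP.sq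
    exact Finset.single_le_sum (f := fun l => (z l - p k l) ^ 2) (fun l _ => sq_nonneg _)
      (Finset.mem_univ l)
  · refine ⟨mn fun k => - R k, fun z => ?_⟩
    unfold mn
    refine Finset.le_inf' _ _ fun k hk => ?_
    refine le_trans (Finset.inf'_le _ hk) ?_
    have : 0 ≤ sq z (p k) := Finset.sum_nonneg fun l _ => sq_nonneg _
    linarith

theorem I_flat_of (κ : ℝ → ℝ) (hκ : ContDiff ℝ 2 κ) (hc : HasCompactSupport κ)
    (hrad : ∀ G : ℝ → ℝ, Continuous G → HasCompactSupport G → ∀ a : ℝ,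
      ∫ p : ℝ × ℝ, G (a + p.1 ^ 2 + p.2 ^ 2) = Real.pi * ∫ u in Ioi a, G u)
    {d n : ℕ} (R : Fin (n + 1) → ℝ) (p : Fin (n + 1) → Fin d → ℝ) :
    I (fun s => - deriv κ s) R
      (fun k => (Fin.cons 0 (Fin.cons 0 (Fin.cons 0 (p k))) : Fin (d + 3) → ℝ)) =
    Real.pi ^ 2 * ∫ z : Fin d → ℝ, ∫ u in Ioi (mn fun k => sq z (p k) - R k), κ u := by
  set M : (Fin d → ℝ) → ℝ := fun z => mn fun k => sq z (p k) - R k with hM
  have hP : Prp M := prp_mn R p
  have hd : Continuous (fun s => - deriv κ s) := (hκ.continuous_deriv (by norm_num)).neg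
  have hds : HasCompactSupport (fun s => - deriv κ s) := hc.deriv.neg
  have hFmn : ∀ w : (Fin (d + 3) → ℝ) × ℝ,
      (mn fun k => F (Fin.cons 0 (Fin.cons 0 (Fin.cons 0 (p k)))) (R k) w) =
        (M (e2 d (e1 (d + 2) w).1).1 + (e2 d (e1 (d + 2) w).1).2.1 ^ 2
          + (e2 d (e1 (d + 2) w).1).2.2 ^ 2) + (e1 (d + 2) w).2.1 ^ 2
          + (e1 (d + 2) w).2.2 ^ 2 := by
    rintro ⟨w, y⟩
    have hrw : ∀ k, F (Fin.cons 0 (Fin.cons 0 (Fin.cons 0 (p k)))) (R k) (w, y) =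
        (sq (fun l => w l.succ.succ.succ) (p k) - R k) +
          (w 0 ^ 2 + w 1 ^ 2 + w 2 ^ 2 + y ^ 2) := by
      intro k
      simp only [F, Helper15.KP.sq, Fin.sum_univ_succ, Fin.cons_zero, Fin.cons_succ, sub_zero]
      have h1 : (Fin.succ 0 : Fin (d + 3)) = 1 := rfl
      have h2 : (Fin.succ (Fin.succ 0) : Fin (d + 3)) = 2 := rfl
      rw [h1, h2]
      ring
    simp only [hrw]
    rw [mn_add]
    have e1a : (e1 (d + 2) (w, y)).1 = fun l => w l.succ := rfl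
    have e1b : (e1 (d + 2) (w, y)).2 = (w 0, y) := rfl
    have e2a : (e2 d (fun l => w l.succ)).1 = fun l => w l.succ.succ.succ := rfl
    have e2b : (e2 d (fun l => w l.succ)).2 = (w 1, w 2) := rfl
    rw [e1a, e1b, e2a, e2b]
    simp only [hM]
    ring
  have hI : I (fun s => - deriv κ s) R
      (fun k => (Fin.cons 0 (Fin.cons 0 (Fin.cons 0 (p k))) : Fin (d + 3) → ℝ)) =
      ∫ w : (Fin (d + 3) → ℝ) × ℝ, - deriv κ
        ((M (e2 d (e1 (d + 2) w).1).1 + (e2 d (e1 (d + 2) w).1).2.1 ^ 2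
          + (e2 d (e1 (d + 2) w).1).2.2 ^ 2) + (e1 (d + 2) w).2.1 ^ 2
          + (e1 (d + 2) w).2.2 ^ 2) := by
    unfold I
    exact integral_congr_ae (Filter.Eventually.of_forall fun w => by
      simp only [hFmn w])
  rw [hI]
  calc ∫ w : (Fin (d + 3) → ℝ) × ℝ, - deriv κ
        ((M (e2 d (e1 (d + 2) w).1).1 + (e2 d (e1 (d + 2) w).1).2.1 ^ 2
          + (e2 d (e1 (d + 2) w).1).2.2 ^ 2) + (e1 (d + 2) w).2.1 ^ 2
          + (e1 (d + 2) w).2.2 ^ 2)
      = ∫ q : (Fin (d + 2) → ℝ) × (ℝ × ℝ), - deriv κ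
        ((M (e2 d q.1).1 + (e2 d q.1).2.1 ^ 2 + (e2 d q.1).2.2 ^ 2) + q.2.1 ^ 2 + q.2.2 ^ 2) :=
        (mp_e1 (d + 2)).integral_comp' (fun q : (Fin (d + 2) → ℝ) × (ℝ × ℝ) => - deriv κ
        ((M (e2 d q.1).1 + (e2 d q.1).2.1 ^ 2 + (e2 d q.1).2.2 ^ 2) + q.2.1 ^ 2 + q.2.2 ^ 2))
    _ = ∫ q : ((Fin d → ℝ) × (ℝ × ℝ)) × (ℝ × ℝ), - deriv κ
        ((M q.1.1 + q.1.2.1 ^ 2 + q.1.2.2 ^ 2) + q.2.1 ^ 2 + q.2.2 ^ 2) := by
        have hmp : MeasurePreserving ((e2 d).prodCongr (MeasurableEquiv.refl (ℝ × ℝ))) :=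
          (mp_e2 d).prod (MeasurePreserving.id volume)
        exact hmp.integral_comp' (fun q : ((Fin d → ℝ) × (ℝ × ℝ)) × (ℝ × ℝ) => - deriv κ
          ((M q.1.1 + q.1.2.1 ^ 2 + q.1.2.2 ^ 2) + q.2.1 ^ 2 + q.2.2 ^ 2))
    _ = Real.pi * ∫ x : (Fin d → ℝ) × (ℝ × ℝ), ∫ u in Ioi (M x.1 + x.2.1 ^ 2 + x.2.2 ^ 2),
          - deriv κ u :=
        peel hP.extend _ hd hds (hrad _ hd hds)
    _ = Real.pi * ∫ x : (Fin d → ℝ) × (ℝ × ℝ), κ (M x.1 + x.2.1 ^ 2 + x.2.2 ^ 2) := by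
        congr 1
        refine integral_congr_ae (Filter.Eventually.of_forall fun x => ?_)
        simp only
        rw [integral_neg, hc.integral_Ioi_deriv_eq (hκ.of_le (by norm_num)), neg_neg]
    _ = Real.pi * (Real.pi * ∫ z : Fin d → ℝ, ∫ u in Ioi (M z), κ u) := by
        rw [peel hP κ hκ.continuous hc (hrad κ hκ.continuous hc)]
    _ = Real.pi ^ 2 * ∫ z : Fin d → ℝ, ∫ u in Ioi (M z), κ u := by ring

end Pool.Agent.Helper11.KP
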